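import Pool.Agent.R570.FAPGrowth

/-!
# MP_868060_lc, Q1: the compressibility rate of FA-presentations of `(ℤ; +)` is linear

For every pair of FA-presentations `P`, `P₀` of the structure `(ℤ; +)`, the compressibility rate of
`P` relative to `P₀` is bounded above by a linear function.
-/

set_option autoImplicit false

namespace Pool.Agent.Results.MP_868060_lc.LinearRate

open Pool.R570.FAP

open Classical

/-- The internal data of a presentation. -/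
theorem exists_dat (P : FAPres) : ∃ D : Dat, ∃ hS : D.S = P.S,
    ∀ (w : List P.S) (x : ℤ), D.Nm (cast (congrArg List hS.symm) w) x ↔
      ∃ h : w ∈ P.L, P.ψ ⟨w, h⟩ = x := by
  obtain ⟨QL, finQL, B, hB⟩ := P.regL
  obtain ⟨Q, finQ, M, hM⟩ := P.regAdd
  have hfn : ∀ w a b, (∃ h : w ∈ P.L, P.ψ ⟨w, h⟩ = a) → (∃ h : w ∈ P.L, P.ψ ⟨w, h⟩ = b) →
      a = b := by
    rintro w a b ⟨h1, rfl⟩ ⟨h2, rfl⟩
    rfl
  have hsj : ∀ a, ∃ w, ∃ h : w ∈ P.L, P.ψ ⟨w, h⟩ = a := by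
    intro a
    obtain ⟨w, hw⟩ := P.surj a
    exact ⟨w.1, w.2, hw⟩
  have hB' : ∀ w, w ∈ B.accepts ↔ ∃ a, ∃ h : w ∈ P.L, P.ψ ⟨w, h⟩ = a := by
    intro w
    rw [hB]
    constructor
    · intro h
      exact ⟨_, h, rfl⟩
    · rintro ⟨a, h, -⟩
      exact h
  have hM' : ∀ x, x ∈ M.accepts ↔ ∃ u v w a b, (∃ h : u ∈ P.L, P.ψ ⟨u, h⟩ = a) ∧
      (∃ h : v ∈ P.L, P.ψ ⟨v, h⟩ = b) ∧ (∃ h : w ∈ P.L, P.ψ ⟨w, h⟩ = a + b) ∧
      x = conv3 u v w := by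
    intro x
    rw [hM]
    constructor
    · rintro ⟨u, v, w, h1, h2⟩
      exact ⟨u.1, v.1, w.1, P.ψ u, P.ψ v, ⟨u.2, rfl⟩, ⟨v.2, rfl⟩, ⟨w.2, h1.symm⟩, h2⟩
    · rintro ⟨u, v, w, a, b, ⟨hu, rfl⟩, ⟨hv, rfl⟩, ⟨hw, hab⟩, hx⟩
      exact ⟨⟨u, hu⟩, ⟨v, hv⟩, ⟨w, hw⟩, hab.symm, hx⟩
  exact ⟨⟨P.S, P.fin, Q, finQ, M, QL, finQL, B, fun w x => ∃ h : w ∈ P.L, P.ψ ⟨w, h⟩ = x,
    hfn, hsj, hB', hM'⟩, rfl, fun w x => Iff.rfl⟩

/-- Names grow at most exponentially. -/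
theorem pres_growth (P : FAPres) : ∃ B : ℕ, ∀ w : P.L,
    |P.ψ w| + 1 ≤ (B : ℤ) ^ (w.1.length + 1) := by
  obtain ⟨D, hS, hD⟩ := exists_dat P
  obtain ⟨S, fin, L, ψ, surj, regL, regEq, regAdd⟩ := P
  simp only at hS
  subst hS
  obtain ⟨B, hB⟩ := D.growth
  refine ⟨B, fun w => hB w.1 _ ?_⟩
  exact (hD w.1 _).2 ⟨w.2, rfl⟩

/-- Small integers have short names. -/
theorem pres_small (P : FAPres) : ∃ a b : ℕ, ∀ (k : ℕ) (x : ℤ), |x| < 2 ^ k →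
    ∃ v : P.L, P.ψ v = x ∧ v.1.length ≤ a * k + b := by
  obtain ⟨D, hS, hD⟩ := exists_dat P
  obtain ⟨S, fin, L, ψ, surj, regL, regEq, regAdd⟩ := P
  simp only at hS
  subst hS
  obtain ⟨n0, h0⟩ := D.exists_mem_Sn 0
  obtain ⟨n1, h1⟩ := D.exists_mem_Sn 1
  obtain ⟨n2, h2⟩ := D.exists_mem_Sn (-1)
  refine ⟨3 * Fintype.card D.Q, max n0 (max n1 n2), fun k x hx => ?_⟩
  obtain ⟨w, hw, hwl⟩ := D.small_mem (D.Sn_mono (le_max_left n0 (max n1 n2)) h0)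
    (D.Sn_mono ((le_max_left n1 n2).trans (le_max_right _ _)) h1)
    (D.Sn_mono ((le_max_right n1 n2).trans (le_max_right _ _)) h2) k x hx
  obtain ⟨hw1, hw2⟩ := (hD w x).1 hw
  refine ⟨⟨w, hw1⟩, hw2, ?_⟩
  show w.length ≤ _
  omega

/-- For every pair of FA-presentations of `(ℤ; +)`, the compressibility rate of the first relative
to the second is bounded above by a linear function. -/
theorem result (P P₀ : FAPres) : ∃ a b : ℕ, ∀ n : ℕ, rate P P₀ n ≤ a * n + b := by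
  obtain ⟨B, hB⟩ := pres_growth P
  obtain ⟨a, b, hab⟩ := pres_small P₀
  refine ⟨a * B, a * B + b, fun n => ?_⟩
  apply csSup_le'
  rintro m ⟨w, hw, rfl⟩
  have h1 := hB w
  have hB0 : B ≠ 0 := by
    rintro rfl
    rw [Nat.cast_zero, zero_pow (by omega)] at h1
    have := abs_nonneg (P.ψ w)
    omega
  have h2 : |P.ψ w| < 2 ^ (B * (n + 1)) := by
    have h3 : (B : ℤ) ^ (w.1.length + 1) ≤ (B : ℤ) ^ (n + 1) :=
      pow_le_pow_right₀ (by exact_mod_cast Nat.one_le_iff_ne_zero.2 hB0) (by omega)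
    have h4 : (B : ℤ) ^ (n + 1) ≤ (2 ^ B) ^ (n + 1) := by
      apply pow_le_pow_left₀ (by positivity)
      exact_mod_cast (Nat.lt_two_pow_self (n := B)).le
    rw [pow_mul]
    omega
  obtain ⟨v, hv, hvl⟩ := hab _ _ h2
  have h3 : minLen P₀ (P.ψ w) ≤ v.1.length := Nat.sInf_le ⟨v, hv, rfl⟩
  have h4 : a * (B * (n + 1)) + b = a * B * n + (a * B + b) := by ring
  omega

end Pool.Agent.Results.MP_868060_lc.LinearRate
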